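import Pool.Agent.KDT.StmtsK

/-!
# KDT, row GMP (helper65): base change
-/

set_option autoImplicit false

namespace Pool.Agent.KDT.H65

open Polynomial H58Q Pool.Agent.SZT Pool.Agent.KDT

variable {K E : Type} [Field K] [Field E] (φ : K →+* E)

theorem mi_map (f A B : K[X]) :
    (MI f A B).map (Q.map φ f) = MI (f.map φ) (A.map φ) (B.map φ) := by
  unfold MI
  rw [Ideal.map_span, Set.image_pair]
  have h1 : Q.map φ f ⟨A, 0⟩ = ⟨A.map φ, 0⟩ := by
    apply QuadraticAlgebra.ext
    · rw [Q.map_re]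
    · rw [Q.map_im]
      exact Polynomial.map_zero φ
  have h2 : Q.map φ f ⟨-B, 1⟩ = ⟨-(B.map φ), 1⟩ := by
    apply QuadraticAlgebra.ext
    · rw [Q.map_re]
      exact Polynomial.map_neg φ
    · rw [Q.map_im]
      exact Polynomial.map_one φ
  rw [h1, h2]

theorem mum_map {f A B : K[X]} (h : Mum f A B) : Mum (f.map φ) (A.map φ) (B.map φ) := by
  refine ⟨h.monic.map φ, ?_, ?_⟩
  · rw [degree_map, degree_map]
    exact h.deg
  · have h1 := Polynomial.map_dvd φ h.dvd
    rw [Polynomial.map_sub, Polynomial.map_pow] at h1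
    exact h1

theorem good_map {f A B : K[X]} (h : Good f A B) : Good (f.map φ) (A.map φ) (B.map φ) := by
  refine ⟨mum_map φ h.toMum, ?_, ?_⟩
  · rw [natDegree_map]
    exact h.two
  · exact h.cop.map (mapRingHom φ)

theorem gen_map {f A B U W : K[X]} {M : ℕ} (h : Gen f A B U W M) :
    Gen (f.map φ) (A.map φ) (B.map φ) (U.map φ) (W.map φ) M := by
  refine ⟨h.pos, h.even, ?_, ?_, ?_⟩
  · rw [← mi_map, ← Ideal.map_pow, h.gen, Ideal.map_span, Set.image_singleton]
    have h1 : Q.map φ f ⟨U, W⟩ = ⟨U.map φ, W.map φ⟩ := by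
      apply QuadraticAlgebra.ext
      · rw [Q.map_re]
      · rw [Q.map_im]
    rw [h1]
  · rw [← Polynomial.map_pow, ← Polynomial.map_pow, ← Polynomial.map_pow, ← Polynomial.map_mul,
      ← Polynomial.map_sub, h.pell]
  · exact h.cop.map (mapRingHom φ)

theorem res_map (A P : K[X]) :
    resultant (A.map φ) (P.map φ) = φ (resultant A P) := by
  rw [natDegree_map, natDegree_map, resultant_map_map]

theorem gmp (kqu : KquStatement) : GmpStatement := by
  intro K E _ _ φ f A B U W M hf
  refine ⟨mum_map φ, good_map φ, gen_map φ, ?_, ?_⟩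
  · intro v w hvw
    unfold Lv
    have e1 : (4 * f.map φ : E[X]) = (4 * f).map φ := by
      rw [Polynomial.map_mul, Polynomial.map_ofNat]
    have e2 : (2 * U.map φ : E[X]) = (2 * U).map φ := by
      rw [Polynomial.map_mul, Polynomial.map_ofNat]
    rw [e1, e2, res_map, res_map, hvw, hvw]
  · intro hV c d hc hd hcd
    have h1 := hV.2 E φ c d hc hd hcd
    have h2 : (fun i => φ (kum f A B i)) = kum (f.map φ) (A.map φ) (B.map φ) :=
      funext ((kqu.2 K E φ f A B).1)
    rw [h2] at h1
    exact h1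

end Pool.Agent.KDT.H65
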